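import Mathlib
import Pool.Agent.R657.AmalgVA5

/-!
# Virtually abelian images of amalgams over virtually cyclic subgroups

Full positive answer to Q1 of MP_f748d5_al: for finitely generated virtually abelian groups
`G₁, G₂` with a common virtually cyclic subgroup `G₀`, the amalgamated free product
`G = G₁ *_{G₀} G₂` has a homomorphism `ν` to a finitely generated virtually abelian group `E`,
injective on `G₁` and on `G₂`, such that `ν(G₁) ∩ ν(G₂)` is virtually cyclic.
-/

namespace Pool.Agent.Results.MP_f748d5_al.VirtAbelianImage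

universe u

/-- A group is virtually abelian if it has an abelian subgroup of finite index. -/
def VirtuallyAbelian (G : Type*) [Group G] : Prop :=
  ∃ K : Subgroup G, K.FiniteIndex ∧ ∀ a ∈ K, ∀ b ∈ K, a * b = b * a

/-- A group is virtually cyclic if it has a cyclic subgroup of finite index. -/
def VirtuallyCyclic (G : Type*) [Group G] : Prop :=
  ∃ C : Subgroup G, C.FiniteIndex ∧ IsCyclic C

section

variable {G₀ G₁ G₂ : Type u} [Group G₀] [Group G₁] [Group G₂]

/-- The amalgamated free product `G₁ *_{G₀} G₂` of two homomorphisms `i₁ : G₀ → G₁` and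
`i₂ : G₀ → G₂`: the free product `G₁ * G₂` modulo the normal closure of all elements
`i₁ g * (i₂ g)⁻¹`, `g ∈ G₀`. -/
abbrev Amalgam (i₁ : G₀ →* G₁) (i₂ : G₀ →* G₂) : Type u :=
  Monoid.Coprod G₁ G₂ ⧸ Subgroup.normalClosure
    (Set.range fun g : G₀ =>
      (Monoid.Coprod.inl (i₁ g) : Monoid.Coprod G₁ G₂) * (Monoid.Coprod.inr (i₂ g))⁻¹)

/-- The canonical homomorphism of the first factor to the amalgamated free product. -/
def left (i₁ : G₀ →* G₁) (i₂ : G₀ →* G₂) : G₁ →* Amalgam i₁ i₂ :=
  (QuotientGroup.mk' _).comp Monoid.Coprod.inl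

/-- The canonical homomorphism of the second factor to the amalgamated free product. -/
def right (i₁ : G₀ →* G₁) (i₂ : G₀ →* G₂) : G₂ →* Amalgam i₁ i₂ :=
  (QuotientGroup.mk' _).comp Monoid.Coprod.inr

end

/-- For all finitely generated virtually abelian groups `G₁, G₂` and every virtually cyclic group
`G₀` with injective homomorphisms `i₁ : G₀ → G₁`, `i₂ : G₀ → G₂` there are a finitely generated
virtually abelian group `E` and a homomorphism `ν` from the amalgamated free product to `E` that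
is injective on both factors and such that the intersection of the images of the two factors is
virtually cyclic. -/
theorem result (G₀ G₁ G₂ : Type u) [Group G₀] [Group G₁] [Group G₂]
    (hfg₁ : Group.FG G₁) (hfg₂ : Group.FG G₂)
    (hG₁ : VirtuallyAbelian G₁) (hG₂ : VirtuallyAbelian G₂) (hG₀ : VirtuallyCyclic G₀)
    (i₁ : G₀ →* G₁) (i₂ : G₀ →* G₂)
    (hi₁ : Function.Injective i₁) (hi₂ : Function.Injective i₂) :
    ∃ (E : Type u) (_ : Group E), Group.FG E ∧ VirtuallyAbelian E ∧
      ∃ ν : Amalgam i₁ i₂ →* E,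
        Function.Injective (ν.comp (left i₁ i₂)) ∧
        Function.Injective (ν.comp (right i₁ i₂)) ∧
        VirtuallyCyclic
          ↥((ν.comp (left i₁ i₂)).range ⊓ (ν.comp (right i₁ i₂)).range) := by
  obtain ⟨E, hE, ν₁, ν₂, hfg, hva, hν, hinj₁, hinj₂, hvc⟩ :=
    Pool.Agent.R657.VA.main_pair hG₀ hG₁ hG₂ i₁ i₂ hi₁ hi₂
  have hker : Subgroup.normalClosure
      (Set.range fun g : G₀ =>
        (Monoid.Coprod.inl (i₁ g) : Monoid.Coprod G₁ G₂) * (Monoid.Coprod.inr (i₂ g))⁻¹) ≤
      (Monoid.Coprod.lift ν₁ ν₂).ker := by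
    refine Subgroup.normalClosure_le_normal ?_
    rintro _ ⟨g, rfl⟩
    change (Monoid.Coprod.lift ν₁ ν₂) _ = 1
    rw [map_mul, map_inv, Monoid.Coprod.lift_apply_inl, Monoid.Coprod.lift_apply_inr, hν,
      mul_inv_cancel]
  let ν : Amalgam i₁ i₂ →* E := QuotientGroup.lift _ (Monoid.Coprod.lift ν₁ ν₂) hker
  have h1 : ν.comp (left i₁ i₂) = ν₁ := by
    ext g
    change (Monoid.Coprod.lift ν₁ ν₂) (Monoid.Coprod.inl g) = ν₁ g
    rw [Monoid.Coprod.lift_apply_inl]
  have h2 : ν.comp (right i₁ i₂) = ν₂ := by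
    ext g
    change (Monoid.Coprod.lift ν₁ ν₂) (Monoid.Coprod.inr g) = ν₂ g
    rw [Monoid.Coprod.lift_apply_inr]
  refine ⟨E, hE, hfg, hva, ν, ?_, ?_, ?_⟩
  · rw [h1]; exact hinj₁
  · rw [h2]; exact hinj₂
  · rw [h1, h2]; exact hvc

end Pool.Agent.Results.MP_f748d5_al.VirtAbelianImage
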